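import Pool.Agent.helper10.QT.SpecY

set_option autoImplicit false

namespace Pool.Agent.AT

theorem GQ1_ev {f : ℕ × ℤ} {n : ℕ} (h : (ev f n).Prime) : ((ev f n : ℕ) : ℤ) = (f.1 : ℤ) * n + f.2 := by
  have h1 := h.pos
  unfold ev at h1 ⊢
  omega

theorem GQ1_one (c : ℤ) : GoodR c 1 := by
  unfold GoodR
  have h : (Set.image (fun p : ℕ => (p, p)) {p : ℕ | p.Prime}).Infinite := by
    apply Set.Infinite.image _ Nat.infinite_setOfPred_prime
    intro a _ b _ hab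
    exact (Prod.ext_iff.1 hab).1
  refine h.mono ?_
  rintro _ ⟨p, hp, rfl⟩
  exact ⟨hp, hp, by simp⟩

theorem GQ1_inv (c : ℤ) (r : ℚ) (hr : r ≠ 0) (h : GoodR c r) : GoodR c r⁻¹ := by
  unfold GoodR at h ⊢
  have h2 := h.image (f := Prod.swap) (Prod.swap_injective.injOn)
  refine h2.mono ?_
  rintro _ ⟨⟨p, q⟩, ⟨hp, hq, he⟩, rfl⟩
  refine ⟨hq, hp, ?_⟩
  simp only [Prod.fst_swap, Prod.snd_swap] at he ⊢
  rw [he, ← mul_assoc, inv_mul_cancel₀ hr, one_mul]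

theorem GQ1 : GQ1_stmt := by
  refine ⟨GQ1_one, GQ1_inv, ?_⟩
  intro c s t hs ht h
  unfold GoodR
  have hinf : {n : ℕ | (ev (s, c) n).Prime ∧ (ev (t, c) n).Prime}.Infinite := by
    rw [Set.infinite_iff_exists_gt]
    intro a
    obtain ⟨n, hn, h1, h2⟩ := h (a + 1)
    exact ⟨n, ⟨h1, h2⟩, by omega⟩
  have himg : (Set.image (fun n : ℕ => (ev (s, c) n, ev (t, c) n))
      {n : ℕ | (ev (s, c) n).Prime ∧ (ev (t, c) n).Prime}).Infinite := by
    apply Set.Infinite.image _ hinf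
    intro a ha b hb hab
    have h1 := (Prod.ext_iff.1 hab).1
    simp only at h1
    have e1 := GQ1_ev ha.1
    have e2 := GQ1_ev hb.1
    rw [h1] at e1
    rw [e1] at e2
    simp only at e2
    have e3 : (s : ℤ) * a = s * b := by linarith
    have hs' : (s : ℤ) ≠ 0 := by exact_mod_cast hs.ne'
    exact_mod_cast mul_left_cancel₀ hs' e3
  refine himg.mono ?_
  rintro _ ⟨n, ⟨h1, h2⟩, rfl⟩
  refine ⟨h1, h2, ?_⟩
  have e1 := GQ1_ev h1
  have e2 := GQ1_ev h2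
  simp only at e1 e2 ⊢
  have e1' : ((ev (s, c) n : ℕ) : ℚ) = (s : ℚ) * n + c := by exact_mod_cast e1
  have e2' : ((ev (t, c) n : ℕ) : ℚ) = (t : ℚ) * n + c := by exact_mod_cast e2
  rw [e1', e2']
  have ht' : (t : ℚ) ≠ 0 := by exact_mod_cast ht.ne'
  field_simp
  ring

end Pool.Agent.AT
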